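import Pool.Agent.Lib.MP_17a322_ntZF.LD
import Pool.Agent.Lib.MP_17a322_nt.FU.A1
import Pool.Agent.Lib.MP_17a322_nt.VA.N1

/-!
Translates of forms.
-/

set_option autoImplicit false

universe u

namespace UVZ

open MvPolynomial
open Pool.Agent.Lib.MP_17a322_nt.VA
open Pool.Agent.Lib.MP_17a322_nt.FU

/-- A form in the coordinates of `x + Y`, times a power of the coordinate `c` of `x - Y`. -/
noncomputable def TR {k : Type u} [Field k] {N : ℕ} (A : AV k N) (x : Fin (N + 1) → k)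
    (c : Fin (N + 1)) (f : MvPolynomial (Fin (N + 1)) k) : MvPolynomial (Fin (N + 1)) k :=
  U_G A x (fun _ : Fin (0 + 1) => (0 : k)) c (rename Sum.inl f)

theorem TR_hom {k : Type u} [Field k] {N : ℕ} (A : AV k N) (x : Fin (N + 1) → k)
    (c : Fin (N + 1)) {D : ℕ} {f : MvPolynomial (Fin (N + 1)) k} (hf : f.IsHomogeneous D) :
    (TR A x c f).IsHomogeneous (2 * D) := by
  refine U_G_hom A (D' := 0) ?_ _ _ _
  intro μ hμ
  rw [mem_support_iff] at hμ
  obtain ⟨ν, h1, h2⟩ := coeff_rename_ne_zero _ _ _ hμ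
  have h3 := hf h2
  rw [Finsupp.weight_apply, Finsupp.sum_fintype _ _ (fun _ => by simp)] at h3
  subst h1
  refine ⟨?_, ?_⟩
  · rw [← h3]
    refine Finset.sum_congr rfl fun i _ => ?_
    rw [Finsupp.mapDomain_apply Sum.inl_injective]
    simp
  · refine Finset.sum_eq_zero fun l _ => ?_
    exact Finsupp.mapDomain_of_notMem_range _ _ (by simp)

/-- The values of the translates. -/
theorem TR_at {k : Type u} [Field k] {N : ℕ} (A : AV k N) (P : A.Pts k) {L : Type u} [Field L]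
    [Algebra k L] (Q : A.Pts L) : ∃ s : L, s ≠ 0 ∧ ∀ (c : Fin (N + 1)) (D : ℕ)
      (f : MvPolynomial (Fin (N + 1)) k), f.IsHomogeneous D →
        aeval (A.x Q) (TR A (A.x P) c f) =
          (s * A.x (A.img (Algebra.ofId k L) P - Q) c) ^ D *
            aeval (A.x (A.img (Algebra.ofId k L) P + Q)) f := by
  obtain ⟨s, hs, h⟩ := (A.img_rep (Algebra.ofId k L) P).spec (AV.Rep.self (A := A) Q)
  refine ⟨s, hs, fun c D f hf => ?_⟩
  unfold TR
  rw [U_G_aeval, aeval_rename, ← aeval_smul_hom hf]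
  congr 1
  have h1 : (Sum.elim (fun a => aeval (Sum.elim (fun i => algebraMap k L (A.x P i)) (A.x Q))
      (A.S a c)) (fun _ : Fin (0 + 1) => algebraMap k L 0) ∘ Sum.inl) =
      fun a => s * A.x (A.img (Algebra.ofId k L) P - Q) c *
        A.x (A.img (Algebra.ofId k L) P + Q) a := by
    funext a
    rw [Function.comp_apply, Sum.elim_inl]
    refine (h a c).trans ?_
    ring
  rw [h1]

/-- Relations between translates. -/
theorem TR_rel {k : Type u} [Field k] {N : ℕ} (A : AV k N) (g : A.Pts k) :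
    ∃ c₁ : Fin (N + 1), ∀ (D D₁ : ℕ) (a b c d : MvPolynomial (Fin (N + 1)) k),
      a.IsHomogeneous D → b.IsHomogeneous D → c.IsHomogeneous D₁ → d.IsHomogeneous D₁ →
      TR A (A.x (-g)) c₁ a * d - TR A (A.x (-g)) c₁ b * c ∈ A.I →
      ∀ c₂ : Fin (N + 1), a * TR A (A.x g) c₂ d - b * TR A (A.x g) c₂ c ∈ A.I := by
  obtain ⟨ξ, γ, hγ, hξ⟩ := AV.exists_rep (A := A) A.gp_ne A.gp_isPt
  -- forms vanish at `ξ` only if they are in the ideal
  have hgen : ∀ (E : ℕ) (F : MvPolynomial (Fin (N + 1)) k), F.IsHomogeneous E →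
      aeval (A.x ξ) F = 0 → F ∈ A.I := by
    intro E F hF h0
    rw [← A.gp_zero_iff]
    have h1 : A.gp = fun i => γ * A.x ξ i := funext fun i => hξ i
    rw [h1, aeval_smul_hom hF, h0, mul_zero]
  obtain ⟨gF, hgF⟩ : ∃ gF, gF = A.img (Algebra.ofId k A.FF) g := ⟨_, rfl⟩
  obtain ⟨s₁, hs₁, h₁⟩ := TR_at A (-g) (gF + ξ)
  obtain ⟨s₂, hs₂, h₂⟩ := TR_at A g ξ
  rw [AV.img_neg, ← hgF] at h₁
  rw [← hgF] at h₂
  obtain ⟨c₁, hc₁⟩ := A.exists_x_ne (-gF - (gF + ξ))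
  refine ⟨c₁, fun D D₁ a b c d ha hb hc hd hmem c₂ => ?_⟩
  have h3 := A.x_isPt (gF + ξ) _ hmem
  rw [map_sub, map_mul, map_mul, h₁ c₁ D a ha, h₁ c₁ D b hb, neg_add_cancel_left] at h3
  have h4 : aeval (A.x ξ) a * aeval (A.x (gF + ξ)) d - aeval (A.x ξ) b * aeval (A.x (gF + ξ)) c =
      0 := by
    have h5 : (s₁ * A.x (-gF - (gF + ξ)) c₁) ^ D * (aeval (A.x ξ) a * aeval (A.x (gF + ξ)) d -
        aeval (A.x ξ) b * aeval (A.x (gF + ξ)) c) = 0 := by
      rw [← h3]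
      ring
    exact (mul_eq_zero.1 h5).resolve_left (pow_ne_zero _ (mul_ne_zero hs₁ hc₁))
  refine hgen (D + 2 * D₁) _ ((ha.mul (TR_hom A _ _ hd)).sub (hb.mul (TR_hom A _ _ hc))) ?_
  rw [map_sub, map_mul, map_mul, h₂ c₂ D₁ d hd, h₂ c₂ D₁ c hc]
  linear_combination (s₂ * A.x (gF - ξ) c₂) ^ D₁ * h4

end UVZ
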