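import Pool.Agent.Lib.MP_17a322_ntZF.VK
import Pool.Agent.Lib.MP_17a322_ntZF.TR
import Pool.Agent.Lib.MP_17a322_nt.FU.M1
import Pool.Agent.Lib.MP_17a322_nt.FU.M3
import Pool.Agent.Lib.MP_17a322_nt.VA.G05b
import Pool.Agent.Lib.MP_17a322_nt.VA.G18

/-!
The valuation property at every point of codimension at most one of an abelian variety: translation by a
generic point brings the point into the etale chart, and a linear functional on the field of the generic
point brings the result back to the ground field.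
-/

set_option autoImplicit false

universe u

namespace UVZ

open MvPolynomial
open Pool.Agent.Lib.MP_17a322_nt.VA
open Pool.Agent.Lib.MP_17a322_nt.FU

/-- **The valuation property at points of codimension at most one.** -/
theorem VP {K : Type u} [Field K] [NumberField K] {N : ℕ} (A : AV K N) {L : Type u} [Field L]
    [Algebra K L] (x : A.Pts L)
    (hx : ∀ (L' : Type u) [Field L'] [Algebra K L'] (p : A.Pts L'),
      tdeg K (A.x p) ≤ tdeg K (A.x x) + 1) {D : ℕ}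
    (a b : MvPolynomial (Fin (N + 1)) K) (ha : a.IsHomogeneous D) (hb : b.IsHomogeneous D) :
    ∃ (D' : ℕ) (c d : MvPolynomial (Fin (N + 1)) K), c.IsHomogeneous D' ∧ d.IsHomogeneous D' ∧
      aeval (A.x x) d ≠ 0 ∧ (a * d - b * c ∈ A.I ∨ b * d - a * c ∈ A.I) := by
  classical
  -- the chart
  obtain ⟨n, e, nd, hn, -⟩ := M_noe A (0 : A.Pts K)
  have hnx : (n : Cardinal.{u}) ≤ tdeg K (A.x x) + 1 := by
    obtain ⟨L₁, _, _, q, hq⟩ := hn.2
    rw [← hq]
    exact hx L₁ q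
  -- the generic point over `L`
  obtain ⟨M, hM, hKM, hLM, hT, g, hg⟩ := G.exists_generic A L
  obtain ⟨K', hK', i1, i2, hT', g₀, hloc, hrg⟩ := G.exists_ratGen (k := K) A g
  obtain rfl : i1 = i2 := Algebra.algebra_ext _ _ fun r => by
    have h2 := @IsScalarTower.algebraMap_apply K K K' _ _ _ _ i2 i1 hT' r
    rw [h2]
    rfl
  obtain ⟨σ, hσ⟩ := G.lift_generic (k := K) A hrg g hloc
  let _ : Algebra K' M := σ.toRingHom.toAlgebra
  have _ : IsScalarTower K K' M := IsScalarTower.of_algebraMap_eq fun r => (σ.commutes r).symm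
  have hI : A.Img (IsScalarTower.toAlgHom K K' M) g₀ g := hσ
  have hf := fun c => G.frac_of_ratGen (k := K) A hrg c
  obtain ⟨xM, hxM⟩ : ∃ xM : A.Pts M, A.Img (IsScalarTower.toAlgHom K L M) x xM :=
    ⟨_, A.img_rep (IsScalarTower.toAlgHom K L M) x⟩
  -- the translate is generic over `L`, so it is in the chart
  have hu : G.loc L (A.x (g + xM)) = A.I.map (MvPolynomial.map (σ := Fin (N + 1)) (algebraMap K L)) :=
    G.loc_add_const A (G.grpI_top A L) hg (G.ZP_top A L x) hxM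
  have hgood : nd.Good (g + xM) := G.good_of_generic nd hu
  have h1 := LD_tdeg A g hg g₀ hI hf x xM hxM
  have h2 : tdeg K' (A.x (g + xM)) = tdeg K' (A.x xM) := by
    rw [add_comm]
    exact (M_shift (k := K') xM g fun i => ⟨rt (A.x g₀) i, (Z_img_rt A hI i).symm⟩).1
  have hdim : (n : Cardinal.{u}) ≤ tdeg K' (A.x (g + xM)) + 1 := by
    rw [h2]
    exact hnx.trans (add_le_add_left h1 1)
  -- the base change to the field of the generic point
  obtain ⟨A', hAI, -, hpt⟩ := exists_bc A K'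
  obtain ⟨eM, heM⟩ := hpt M
  obtain ⟨e₀, he₀⟩ := hpt K'
  obtain ⟨g₁, hg₁⟩ : ∃ g₁, g₁ = e₀.symm g₀ := ⟨_, rfl⟩
  have hg₁x : A'.x g₁ = A.x g₀ := by
    rw [hg₁, ← he₀, AddEquiv.apply_symm_apply]
  have hsx : ∀ Q : A.Pts M, A'.x (eM.symm Q) = A.x Q := fun Q => by
    rw [← heM, AddEquiv.apply_symm_apply]
  have himg : A'.img (Algebra.ofId K' M) g₁ = eM.symm g := by
    rw [AV.img_eq_iff]
    obtain ⟨cg, hcg, hcgx⟩ := hI
    refine ⟨cg, hcg, fun i => ?_⟩
    have h3 : algebraMap K' M (A.x g₀ i) = cg * A.x g i := hcgx i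
    show algebraMap K' M (A'.x g₁ i) = cg * A'.x (eM.symm g) i
    rw [hsx, hg₁x]
    exact h3
  obtain ⟨c₁, hc₁⟩ := TR_rel A' g₁
  obtain ⟨s, hs, hTR⟩ := TR_at A' g₁ (eM.symm xM)
  rw [himg, ← map_sub, ← map_add, hsx, hsx, hsx] at hTR
  obtain ⟨c₂, hc₂⟩ := A.exists_x_ne (g - xM)
  obtain ⟨a', ha'⟩ : ∃ a', a' = MvPolynomial.map (σ := Fin (N + 1)) (algebraMap K K') a := ⟨_, rfl⟩
  obtain ⟨b', hb'⟩ : ∃ b', b' = MvPolynomial.map (σ := Fin (N + 1)) (algebraMap K K') b := ⟨_, rfl⟩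
  have ha'h : a'.IsHomogeneous D := by
    rw [ha']
    exact ha.map _
  have hb'h : b'.IsHomogeneous D := by
    rw [hb']
    exact hb.map _
  -- the valuation property of the translate
  obtain ⟨D₁, c', d', hc', hd', hd0, hmem⟩ := VK (k := K') nd (g + xM) hgood hdim
    (TR A' (A'.x (-g₁)) c₁ a') (TR A' (A'.x (-g₁)) c₁ b') (TR_hom A' _ _ ha'h) (TR_hom A' _ _ hb'h)
  obtain ⟨c'', hc''⟩ : ∃ c'', c'' = TR A' (A'.x g₁) c₂ c' := ⟨_, rfl⟩
  obtain ⟨d'', hd''⟩ : ∃ d'', d'' = TR A' (A'.x g₁) c₂ d' := ⟨_, rfl⟩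
  have hc''h : c''.IsHomogeneous (2 * D₁) := by
    rw [hc'']
    exact TR_hom A' _ _ hc'
  have hd''h : d''.IsHomogeneous (2 * D₁) := by
    rw [hd'']
    exact TR_hom A' _ _ hd'
  have hd1 : aeval (A.x xM) d'' ≠ 0 := by
    rw [hd'', hTR c₂ D₁ d' hd']
    exact mul_ne_zero (pow_ne_zero _ (mul_ne_zero hs hc₂)) hd0
  have hd2 : aeval (fun i => algebraMap L M (A.x x i)) d'' ≠ 0 := by
    obtain ⟨cx, hcx, hcxx⟩ := hxM
    have h3 : (fun i => algebraMap L M (A.x x i)) = fun i => cx * A.x xM i := funext fun i => hcxx i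
    rw [h3, aeval_smul_hom hd''h]
    exact mul_ne_zero (pow_ne_zero _ hcx) hd1
  obtain ⟨lam, hlam⟩ := exists_lamP (K := K) (A.x x) d'' hd2
  refine ⟨2 * D₁, lamP lam c'', lamP lam d'', lamP_hom lam hc''h, lamP_hom lam hd''h, hlam, ?_⟩
  rw [← hAI] at hmem
  rcases hmem with hmem | hmem
  · left
    have h3 := hc₁ D D₁ a' b' c' d' ha'h hb'h hc' hd' hmem c₂
    rw [hAI] at h3
    have h4 := lamP_mem lam A.I h3
    rw [lamP_sub, ← hc'', ← hd'', ha', hb', lamP_mul, lamP_mul] at h4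
    exact h4
  · right
    have h3 := hc₁ D D₁ b' a' c' d' hb'h ha'h hc' hd' hmem c₂
    rw [hAI] at h3
    have h4 := lamP_mem lam A.I h3
    rw [lamP_sub, ← hc'', ← hd'', ha', hb', lamP_mul, lamP_mul] at h4
    exact h4

end UVZ
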