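import Pool.Agent.Lib.MP_17a322_ntZF.T2

/-!
The exceptional points of small height lie in a closed set `G = 0`.
-/

universe u

namespace UVZ

open MvPolynomial Height
open Pool.Agent.Lib.MP_17a322_nt.VA
open Pool.Agent.Lib.MP_17a322_nt.FU

/-- The exceptional translates of height at most `C` lie in a closed set `G = 0` which is not `A`. -/
theorem zset {K : Type u} [Field K] [NumberField K] {N M : ℕ} (A : AV K N)
    {d d' r : ℕ} (g : Fin r → MvPolynomial (Fin (N + 1) ⊕ Fin (M + 1)) K)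
    (hg : ∀ j, ∀ μ ∈ (g j).support, ∑ i, μ (Sum.inl i) = d ∧ ∑ l, μ (Sum.inr l) = d')
    {D D' m : ℕ} (f : Fin m → MvPolynomial (Fin (N + 1) ⊕ Fin (M + 1)) K)
    (hf : ∀ j, ∀ μ ∈ (f j).support, ∑ i, μ (Sum.inl i) = D ∧ ∑ l, μ (Sum.inr l) = D')
    (C : ℝ) (k : ℕ) (B : Fin k → AV K N) (hB : ∀ i, IsSubAV (B i) A)
    (t : Fin (M + 1) → K) (ht : t ≠ 0) (h2 : Codim2 A t g)
    (h1 : ∃ (L : Type u) (_ : Field L) (_ : Algebra K L) (P : A.Pts L),
      ∃ j, aeval (Sum.elim (A.x P) fun l => algebraMap K L (t l)) (f j) ≠ 0) :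
    ∃ (n : ℕ) (G : MvPolynomial (Fin (N + 1)) K), G.IsHomogeneous n ∧ G ∉ A.I ∧
      ∀ P : A.Pts K, (∃ (i : Fin k) (w : A.Pts K) (p : (B i).Pts K),
        P = w + (hB i).inc K p ∧ logHeight (A.x w) ≤ C ∧
          ((∀ j, Tr (hB i) P t (f j)) ∨ Bad (hB i) P t g)) → aeval (A.x P) G = 0 := by
  classical
  have _hg := hg
  have _ht := ht
  -- the form for `X_t`
  obtain ⟨L₁, _, _, P₁, j₁, hj₁⟩ := h1
  obtain ⟨F₁, hF₁, hF₁e⟩ := Z2_spec (f j₁) (hf j₁) t
  have hF₁A : F₁ ∉ A.I := fun hmem => hj₁ (by rw [← hF₁e]; exact A.x_isPt P₁ _ hmem)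
  -- the forms for the translates
  have hT : ∀ (i : Fin k) (w : A.Pts K), ∃ (e : ℕ) (G : MvPolynomial (Fin (N + 1)) K),
      G.IsHomogeneous e ∧ G ∉ A.I ∧ (¬ (B i).I ≤ A.I → ∀ b : (B i).Pts K,
        aeval (A.x (w + (hB i).inc K b)) G = 0) := by
    intro i w
    by_cases hI : (B i).I ≤ A.I
    · refine ⟨0, 1, isHomogeneous_one _ _, ?_, fun h => absurd hI h⟩
      intro h1
      have h3 := A.x_isPt (0 : A.Pts K) _ h1
      rw [map_one] at h3
      exact one_ne_zero h3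
    · obtain ⟨e, G, hG1, hG2, hG3⟩ := Z1_tr (hB i) hI w
      exact ⟨e, G, hG1, hG2, fun _ => hG3⟩
  choose e G hGh hGA hG0 using hT
  have hfin : {P : A.Pts K | logHeight (A.x P) ≤ C}.Finite := MWA.W5 A _
  obtain ⟨W, hW⟩ : ∃ W : Finset (A.Pts K), ∀ P, P ∈ W ↔ logHeight (A.x P) ≤ C :=
    ⟨hfin.toFinset, fun P => by simp⟩
  have hprime : A.I.IsPrime := by
    have h3 := A.prime K
    have h4 : MvPolynomial.map (σ := Fin (N + 1)) (algebraMap K K) = RingHom.id _ := by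
      refine RingHom.ext fun f => ?_
      exact MvPolynomial.map_id f
    rwa [h4, Ideal.map_id] at h3
  refine ⟨D + ∑ i, ∑ w ∈ W, e i w, F₁ * ∏ i, ∏ w ∈ W, G i w, ?_, ?_, ?_⟩
  · exact hF₁.mul (IsHomogeneous.prod _ _ _ fun i _ =>
      IsHomogeneous.prod _ _ _ fun w _ => hGh i w)
  · intro hmem
    rcases hprime.mem_or_mem hmem with h3 | h3
    · exact hF₁A h3
    · obtain ⟨i, -, h4⟩ := hprime.prod_mem_iff.1 h3
      obtain ⟨w, -, h5⟩ := hprime.prod_mem_iff.1 h4
      exact hGA i w h5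
  · rintro P ⟨i, w, b, hw, hwh, hTB⟩
    rw [map_mul, map_prod]
    have hwW : w ∈ W := (hW w).2 hwh
    by_cases hI : (B i).I ≤ A.I
    · rcases hTB with hTr | hBad
      · have h3 := hTr j₁ K 0
        rw [map_zero, add_zero] at h3
        have h4 : A.img (Algebra.ofId K K) P = P := by
          have h5 : Algebra.ofId K K = AlgHom.id K K := AlgHom.ext fun _ => rfl
          rw [h5, AV.img_id]
        rw [h4, ← hF₁e] at h3
        rw [h3, zero_mul]
      · exfalso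
        obtain ⟨L, _, _, q, hq, hmax⟩ := hBad
        obtain ⟨L', _, _, Q, hQ⟩ := h2 L _ hq
        obtain ⟨Q', hQ'⟩ : ∃ Q' : (B i).Pts L', (B i).x Q' = A.x Q :=
          ⟨⟨Q.1, fun f hf => Q.2 f (hI hf)⟩, rfl⟩
        have h3 := hmax L' Q'
        rw [hQ'] at h3
        have h4 := (M_shift (k := K) ((hB i).inc L q) (A.img (Algebra.ofId K L) P) ?_).1
        · rw [add_comm (A.img (Algebra.ofId K L) P), h4, (hB i).x_inc] at hQ
          exact absurd (hQ.trans_le h3) (lt_irrefl _)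
        · intro s
          refine ⟨rt (A.x P) s, ?_⟩
          obtain ⟨c, hc, h5⟩ := A.img_rep (Algebra.ofId K L) P
          unfold rt
          rw [map_div₀]
          have h6 : ∀ a, algebraMap K L (A.x P a) = c * A.x (A.img (Algebra.ofId K L) P) a := h5
          rw [h6, h6, mul_div_mul_left _ _ hc]
    · have h3 : ∏ i, (aeval (A.x P)) (∏ w ∈ W, G i w) = 0 := by
        refine Finset.prod_eq_zero (Finset.mem_univ i) ?_
        rw [map_prod]
        refine Finset.prod_eq_zero hwW ?_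
        rw [hw]
        exact hG0 i w hI b
      rw [h3, mul_zero]

end UVZ
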