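import Pool.Agent.Lib.MP_17a322_nt.FU.M5
import Pool.Agent.Lib.MP_17a322_nt.VA.G29
import Pool.Agent.Lib.MP_17a322_nt.VA.Z7

/-!
Base change of an abelian variety.
-/

set_option autoImplicit false

universe u

namespace UVZ

open MvPolynomial
open Pool.Agent.Lib.MP_17a322_nt.VA

/-- The points over `L` of the ideal generated by `I` over `k` are the points of `I`. -/
private theorem bc_iff {K : Type u} [Field K] {N : ℕ} (I : Ideal (MvPolynomial (Fin (N + 1)) K))
    (k : Type u) [Field k] [Algebra K k] (L : Type u) [Field L] [Algebra K L] [Algebra k L]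
    [IsScalarTower K k L] (x : Fin (N + 1) → L) :
    (∀ f ∈ I.map (MvPolynomial.map (σ := Fin (N + 1)) (algebraMap K k)), aeval x f = 0) ↔
      ∀ f ∈ I, aeval x f = 0 := by
  constructor
  · intro h f hf
    have h1 := h _ (Ideal.mem_map_of_mem (MvPolynomial.map (algebraMap K k)) hf)
    rwa [aeval_map_algebraMap] at h1
  · intro h f hf
    have h1 : I.map (MvPolynomial.map (σ := Fin (N + 1)) (algebraMap K k)) ≤
        RingHom.ker (aeval x : MvPolynomial (Fin (N + 1)) k →ₐ[k] L) := by
      rw [Ideal.map_le_iff_le_comap]
      intro g hg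
      rw [Ideal.mem_comap, RingHom.mem_ker, aeval_map_algebraMap]
      exact h g hg
    exact h1 hf

/-- The points over `L`. -/
private def bc_e {K : Type u} [Field K] {N : ℕ} (I : Ideal (MvPolynomial (Fin (N + 1)) K))
    (k : Type u) [Field k] [Algebra K k] (L : Type u) [Field L] [Algebra K L] [Algebra k L]
    [IsScalarTower K k L] :
    Pt (I.map (MvPolynomial.map (σ := Fin (N + 1)) (algebraMap K k))) L ≃ Pt I L where
  toFun P := ⟨P.1, (bc_iff I k L _).1 P.2⟩
  invFun P := ⟨P.1, (bc_iff I k L _).2 P.2⟩
  left_inv _ := rfl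
  right_inv _ := rfl

/-- The algebra structure over the small field. -/
private abbrev bc_alg (K k L : Type u) [Field K] [Field k] [Algebra K k] [Field L] [Algebra k L] :
    Algebra K L := ((algebraMap k L).comp (algebraMap K k)).toAlgebra

private theorem bc_tower (K k L : Type u) [Field K] [Field k] [Algebra K k] [Field L]
    [Algebra k L] : letI := bc_alg K k L; IsScalarTower K k L :=
  letI := bc_alg K k L
  IsScalarTower.of_algebraMap_eq fun _ => rfl

/-- **Base change.** -/
theorem exists_bc {K : Type u} [Field K] {N : ℕ} (A : AV K N) (k : Type u) [Field k]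
    [Algebra K k] : ∃ A' : AV k N,
      A'.I = A.I.map (MvPolynomial.map (σ := Fin (N + 1)) (algebraMap K k)) ∧
      (∀ a b, A'.S a b = MvPolynomial.map (algebraMap K k) (A.S a b)) ∧
      ∀ (L : Type u) [Field L] [Algebra K L] [Algebra k L] [IsScalarTower K k L],
        ∃ e : A'.Pts L ≃+ A.Pts L, ∀ P, A.x (e P) = A'.x P := by
  obtain ⟨M, _, _, _, _, y, hy⟩ := G.exists_generic A k
  refine ⟨{ I := A.I.map (MvPolynomial.map (σ := Fin (N + 1)) (algebraMap K k))
            homog := ?_
            prime := ?_
            grp := fun L _ _ =>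
              letI := bc_alg K k L
              letI := bc_tower K k L
              letI := A.grp L
              (bc_e A.I k L).addCommGroup
            functorial := ?_
            S := fun a b => MvPolynomial.map (algebraMap K k) (A.S a b)
            bihomog := ?_
            spec := ?_ }, rfl, fun _ _ => rfl, ?_⟩
  · intro f hf d
    rw [← hy] at hf ⊢
    exact G.comp_mem_loc hf d
  · intro L _ _
    let _ := bc_alg K k L
    have h1 := A.prime L
    rw [Ideal.map_map]
    have h2 : (MvPolynomial.map (σ := Fin (N + 1)) (algebraMap k L)).comp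
        (MvPolynomial.map (σ := Fin (N + 1)) (algebraMap K k)) =
        MvPolynomial.map (σ := Fin (N + 1)) (algebraMap K L) := by
      refine RingHom.ext fun f => ?_
      rw [RingHom.comp_apply, MvPolynomial.map_map]
      rfl
    rw [h2]
    exact h1
  · intro L L' _ _ _ _ φ P Q P' Q' hP hQ
    let _ := bc_alg K k L
    let _ := bc_alg K k L'
    have _ := bc_tower K k L
    have _ := bc_tower K k L'
    exact A.functorial L L' (φ.restrictScalars K) (bc_e A.I k L P) (bc_e A.I k L Q)
      (bc_e A.I k L' P') (bc_e A.I k L' Q') hP hQ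
  · intro a b m hm
    exact A.bihomog a b m (support_map_subset _ _ hm)
  · intro L _ _ P Q
    let _ := bc_alg K k L
    have _ := bc_tower K k L
    obtain ⟨c, hc, h⟩ := A.spec L (bc_e A.I k L P) (bc_e A.I k L Q)
    refine ⟨c, hc, fun a b => ?_⟩
    rw [aeval_map_algebraMap]
    exact h a b
  · intro L _ i1 i2 i3
    obtain rfl : i1 = bc_alg K k L := Algebra.algebra_ext _ _ fun r => by
      have h2 := IsScalarTower.algebraMap_apply K k L r
      rw [h2]
      rfl
    let _ := bc_alg K k L
    have _ := bc_tower K k L
    exact ⟨{ bc_e A.I k L with map_add' := fun P Q => rfl }, fun P => rfl⟩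

end UVZ
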