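import Pool.Agent.Lib.MP_17a322_ntZF.LFun
import Pool.Agent.Lib.MP_17a322_nt.FU.M5
import Pool.Agent.Lib.MP_17a322_nt.VA.G29

/-!
The field of a generic point is linearly disjoint.
-/

set_option autoImplicit false

universe u v

namespace UVZ

open MvPolynomial
open Pool.Agent.Lib.MP_17a322_nt.VA

/-- A form at a multiple. -/
theorem aeval_smul_hom {K : Type*} [Field K] {σ : Type*} {F : MvPolynomial σ K} {d : ℕ}
    (hF : F.IsHomogeneous d) {L : Type*} [CommRing L] [Algebra K L] (c : L) (x : σ → L) :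
    aeval (fun i => c * x i) F = c ^ d * aeval x F := by
  rw [aeval_def, aeval_def, eval₂_eq, eval₂_eq, Finset.mul_sum]
  refine Finset.sum_congr rfl fun μ hμ => ?_
  have h1 : ∑ i ∈ μ.support, μ i = d := by
    have h2 := hF (mem_support_iff.1 hμ)
    rw [Finsupp.weight_apply, Finsupp.sum] at h2
    simpa using h2
  simp only [mul_pow, Finset.prod_mul_distrib]
  rw [Finset.prod_pow_eq_pow_sum, h1]
  ring

/-- **Linear disjointness**: `g` is generic over `L` and the elements of `K'` are quotients of forms at `g`. -/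
theorem LD2 {K L K' M : Type u} [Field K] [Field L] [Field K'] [Field M] [Algebra K L]
    [Algebra K K'] [Algebra K M] [Algebra L M] [Algebra K' M] [IsScalarTower K L M]
    [IsScalarTower K K' M] {N : ℕ} (A : AV K N) (g : A.Pts M)
    (hg : G.loc L (A.x g) = A.I.map (MvPolynomial.map (σ := Fin (N + 1)) (algebraMap K L)))
    (g₀ : A.Pts K') (hI : A.Img (IsScalarTower.toAlgHom K K' M) g₀ g)
    (hf : ∀ c : K', ∃ (d : ℕ) (G H : MvPolynomial (Fin (N + 1)) K), G.IsHomogeneous d ∧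
      H.IsHomogeneous d ∧ aeval (A.x g₀) H ≠ 0 ∧ c = aeval (A.x g₀) G / aeval (A.x g₀) H)
    {σ : Type v} (z : σ → L) (p : MvPolynomial σ K')
    (h : aeval (fun i => algebraMap L M (z i)) p = 0) (lam : K' →ₗ[K] K) :
    aeval z (lamP lam p) = 0 := by
  classical
  choose d G H hG hH hH0 hc using hf
  obtain ⟨cg, hcg, hcgx⟩ := hI
  have hcgx' : ∀ i, algebraMap K' M (A.x g₀ i) = cg * A.x g i := hcgx
  -- common denominator
  obtain ⟨S, hS⟩ : ∃ S, S = p.support := ⟨_, rfl⟩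
  obtain ⟨e, he⟩ : ∃ e, e = ∑ μ ∈ S, d (coeff μ p) := ⟨_, rfl⟩
  obtain ⟨F, hF⟩ : ∃ F : (σ →₀ ℕ) → MvPolynomial (Fin (N + 1)) K, ∀ μ, F μ =
      G (coeff μ p) * ∏ ν ∈ S.erase μ, H (coeff ν p) := ⟨_, fun _ => rfl⟩
  obtain ⟨Hall, hHall⟩ : ∃ Hall, Hall = ∏ ν ∈ S, aeval (A.x g₀) (H (coeff ν p)) := ⟨_, rfl⟩
  have hHall0 : Hall ≠ 0 := by
    rw [hHall]
    exact Finset.prod_ne_zero_iff.2 fun ν _ => hH0 _
  have hFh : ∀ μ ∈ S, (F μ).IsHomogeneous e := by
    intro μ hμ
    rw [hF, he, ← Finset.add_sum_erase S _ hμ]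
    exact (hG _).mul (IsHomogeneous.prod _ _ _ fun ν _ => hH _)
  have hFe : ∀ μ ∈ S, aeval (A.x g₀) (F μ) = coeff μ p * Hall := by
    intro μ hμ
    rw [hF, map_mul, map_prod, hHall, ← Finset.mul_prod_erase S _ hμ, ← mul_assoc]
    congr 1
    have h1 := hc (coeff μ p)
    rw [eq_div_iff (hH0 _)] at h1
    exact h1.symm
  -- the form over `L`
  obtain ⟨Ψ, hΨ⟩ : ∃ Ψ : MvPolynomial (Fin (N + 1)) L, Ψ = ∑ μ ∈ S,
      C (μ.prod fun i m => z i ^ m) * MvPolynomial.map (algebraMap K L) (F μ) := ⟨_, rfl⟩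
  have hΨh : Ψ.IsHomogeneous e := by
    rw [hΨ]
    refine IsHomogeneous.sum _ _ _ fun μ hμ => ?_
    exact ((hFh μ hμ).map _).C_mul _
  have hFg : ∀ μ ∈ S, cg ^ e * aeval (A.x g) (F μ) = algebraMap K' M (coeff μ p * Hall) := by
    intro μ hμ
    rw [← hFe μ hμ, ← aeval_smul_hom (hFh μ hμ)]
    have h1 : (fun i => cg * A.x g i) = fun i => algebraMap K' M (A.x g₀ i) :=
      funext fun i => (hcgx' i).symm
    rw [h1]
    exact MvPolynomial.aeval_algebraMap_apply _ _ _
  have hΨ0 : aeval (A.x g) Ψ = 0 := by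
    have h1 : cg ^ e * aeval (A.x g) Ψ = algebraMap K' M Hall *
        aeval (fun i => algebraMap L M (z i)) p := by
      rw [hΨ, map_sum, Finset.mul_sum, aeval_def (p := p), eval₂_eq, Finset.mul_sum, ← hS]
      refine Finset.sum_congr rfl fun μ hμ => ?_
      rw [map_mul, aeval_C, aeval_map_algebraMap, mul_left_comm, hFg μ hμ, map_mul, Finsupp.prod,
        map_prod]
      simp only [map_pow]
      ring
    rw [h, mul_zero] at h1
    exact (mul_eq_zero.1 h1).resolve_left (pow_ne_zero _ hcg)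
  have hΨI : Ψ ∈ A.I.map (MvPolynomial.map (σ := Fin (N + 1)) (algebraMap K L)) := by
    rw [← hg]
    exact (Pool.Agent.Lib.MP_17a322_nt.VA.G.mem_loc_of_homog hΨh).2 hΨ0
  -- functionals of `L`
  have key : ∀ lamL : L →ₗ[K] K, ∑ μ ∈ S, lamL (μ.prod fun i m => z i ^ m) • coeff μ p = 0 := by
    intro lamL
    have h1 := lamP_mem lamL A.I hΨI
    have h2 : lamP lamL Ψ = ∑ μ ∈ S, C (lamL (μ.prod fun i m => z i ^ m)) * F μ := by
      refine MvPolynomial.ext _ _ fun ν => ?_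
      rw [coeff_lamP, hΨ, coeff_sum, coeff_sum, map_sum]
      refine Finset.sum_congr rfl fun μ _ => ?_
      rw [coeff_C_mul, coeff_C_mul, coeff_map, mul_comm, ← Algebra.smul_def, map_smul, smul_eq_mul,
        mul_comm]
    have h3 := Z_x_isPt A g₀ _ h1
    rw [h2, map_sum] at h3
    have h4 : (∑ μ ∈ S, lamL (μ.prod fun i m => z i ^ m) • coeff μ p) * Hall = 0 := by
      rw [← h3, Finset.sum_mul]
      refine Finset.sum_congr rfl fun μ hμ => ?_
      rw [map_mul, aeval_C, hFe μ hμ, Algebra.smul_def, mul_assoc]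
    exact (mul_eq_zero.1 h4).resolve_right hHall0
  -- functionals of `K'`
  have h5 : ∀ lamL : L →ₗ[K] K, lamL (aeval z (lamP lam p)) = 0 := by
    intro lamL
    have h6 := congrArg lam (key lamL)
    rw [map_sum, map_zero] at h6
    rw [← h6]
    unfold lamP
    rw [map_sum, map_sum, ← hS]
    refine Finset.sum_congr rfl fun μ _ => ?_
    rw [aeval_monomial, ← Algebra.smul_def, map_smul, map_smul, smul_eq_mul, smul_eq_mul, mul_comm]
  exact (Module.forall_dual_apply_eq_zero_iff K _).1 h5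

/-- The transcendence degree does not become smaller over `K'`. -/
theorem LD_tdeg {K L K' M : Type u} [Field K] [Field L] [Field K'] [Field M] [Algebra K L]
    [Algebra K K'] [Algebra K M] [Algebra L M] [Algebra K' M] [IsScalarTower K L M]
    [IsScalarTower K K' M] {N : ℕ} (A : AV K N) (g : A.Pts M)
    (hg : G.loc L (A.x g) = A.I.map (MvPolynomial.map (σ := Fin (N + 1)) (algebraMap K L)))
    (g₀ : A.Pts K') (hI : A.Img (IsScalarTower.toAlgHom K K' M) g₀ g)
    (hf : ∀ c : K', ∃ (d : ℕ) (G H : MvPolynomial (Fin (N + 1)) K), G.IsHomogeneous d ∧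
      H.IsHomogeneous d ∧ aeval (A.x g₀) H ≠ 0 ∧ c = aeval (A.x g₀) G / aeval (A.x g₀) H)
    (x : A.Pts L) (x' : A.Pts M) (hx : A.Img (IsScalarTower.toAlgHom K L M) x x') :
    tdeg K (A.x x) ≤ tdeg K' (A.x x') := by
  obtain ⟨T, hT, -, hTc⟩ := Z_exists_basis (K := K) (A.x x)
  rw [hTc]
  obtain ⟨c, hc, hcx⟩ := hx
  have hcx' : ∀ i, algebraMap L M (A.x x i) = c * A.x x' i := hcx
  have hrt : ∀ t, rt (A.x x') t = algebraMap L M (rt (A.x x) t) := by
    intro t
    unfold rt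
    rw [map_div₀, hcx', hcx', mul_div_mul_left _ _ hc]
  refine (Z_card_le_tdeg (K := K') (A.x x') (fun t : T => rt (A.x x') t) ?_ fun t =>
    isAlgebraic_algebraMap (⟨rt (A.x x') t, IntermediateField.subset_adjoin K' _ ⟨_, rfl⟩⟩ :
      IntermediateField.adjoin K' (Set.range (rt (A.x x'))))).2
  rw [algebraicIndependent_iff]
  intro p hp
  have h1 : (fun t : T => rt (A.x x') t) = fun t : T => algebraMap L M (rt (A.x x) t) :=
    funext fun t => hrt t
  rw [h1] at hp
  have h2 := LD2 A g hg g₀ hI hf (fun t : T => rt (A.x x) t) p hp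
  refine MvPolynomial.ext _ _ fun μ => ?_
  rw [coeff_zero]
  refine (Module.forall_dual_apply_eq_zero_iff K _).1 fun lam => ?_
  have h3 := (algebraicIndependent_iff.1 hT) _ (h2 lam)
  rw [← coeff_lamP, h3, coeff_zero]

end UVZ
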