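import Mathlib

/-!
Linear functionals on the coefficients.
-/

set_option autoImplicit false

universe u v w

namespace UVZ

open MvPolynomial

variable {K : Type u} {K' : Type v} [Field K] [Field K'] [Algebra K K'] {σ : Type w}

/-- The functional `lam` applied to the coefficients. -/
noncomputable def lamP (lam : K' →ₗ[K] K) (f : MvPolynomial σ K') : MvPolynomial σ K :=
  ∑ μ ∈ f.support, monomial μ (lam (coeff μ f))

theorem coeff_lamP (lam : K' →ₗ[K] K) (f : MvPolynomial σ K') (μ : σ →₀ ℕ) :
    coeff μ (lamP lam f) = lam (coeff μ f) := by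
  classical
  unfold lamP
  rw [coeff_sum]
  simp only [coeff_monomial]
  rw [Finset.sum_ite_eq']
  split_ifs with h
  · rfl
  · rw [notMem_support_iff.1 h, map_zero]

theorem lamP_add (lam : K' →ₗ[K] K) (f g : MvPolynomial σ K') :
    lamP lam (f + g) = lamP lam f + lamP lam g := by
  refine MvPolynomial.ext _ _ fun μ => ?_
  rw [coeff_add, coeff_lamP, coeff_lamP, coeff_lamP, coeff_add, map_add]

theorem lamP_sub (lam : K' →ₗ[K] K) (f g : MvPolynomial σ K') :
    lamP lam (f - g) = lamP lam f - lamP lam g := by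
  refine MvPolynomial.ext _ _ fun μ => ?_
  rw [coeff_sub, coeff_lamP, coeff_lamP, coeff_lamP, coeff_sub, map_sub]

theorem lamP_zero (lam : K' →ₗ[K] K) : lamP lam (0 : MvPolynomial σ K') = 0 := by
  refine MvPolynomial.ext _ _ fun μ => ?_
  rw [coeff_lamP, coeff_zero, coeff_zero, map_zero]

/-- It is linear over the polynomials over `K`. -/
theorem lamP_mul (lam : K' →ₗ[K] K) (a : MvPolynomial σ K) (f : MvPolynomial σ K') :
    lamP lam (MvPolynomial.map (algebraMap K K') a * f) = a * lamP lam f := by
  classical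
  refine MvPolynomial.ext _ _ fun μ => ?_
  rw [coeff_lamP, coeff_mul, coeff_mul, map_sum]
  refine Finset.sum_congr rfl fun z _ => ?_
  rw [coeff_map, coeff_lamP, ← Algebra.smul_def, map_smul, smul_eq_mul]

theorem lamP_C_mul (lam : K' →ₗ[K] K) (c : K') (f : MvPolynomial σ K') :
    lamP lam (C c * f) = lamP (lam.comp (LinearMap.mulLeft K c)) f := by
  refine MvPolynomial.ext _ _ fun μ => ?_
  rw [coeff_lamP, coeff_lamP, coeff_C_mul]
  rfl

private theorem lamP_mem_mul (I : Ideal (MvPolynomial σ K)) {x : MvPolynomial σ K'}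
    (hx : ∀ lam : K' →ₗ[K] K, lamP lam x ∈ I) (a : MvPolynomial σ K') :
    ∀ lam : K' →ₗ[K] K, lamP lam (a * x) ∈ I := by
  induction a using MvPolynomial.induction_on with
  | C c =>
    intro lam
    rw [lamP_C_mul]
    exact hx _
  | add p q hp hq =>
    intro lam
    rw [add_mul, lamP_add]
    exact I.add_mem (hp lam) (hq lam)
  | mul_X p i hp =>
    intro lam
    have h1 : p * X i * x = MvPolynomial.map (algebraMap K K') (X i) * (p * x) := by
      rw [map_X]
      ring
    rw [h1, lamP_mul]
    exact I.mul_mem_left _ (hp lam)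

/-- It preserves the ideals defined over `K`. -/
theorem lamP_mem (lam : K' →ₗ[K] K) (I : Ideal (MvPolynomial σ K)) {f : MvPolynomial σ K'}
    (hf : f ∈ I.map (MvPolynomial.map (σ := σ) (algebraMap K K'))) : lamP lam f ∈ I := by
  have key : ∀ lam : K' →ₗ[K] K, lamP lam f ∈ I := by
    unfold Ideal.map at hf
    induction hf using Submodule.span_induction with
    | mem x h =>
      intro lam
      obtain ⟨g, hg, rfl⟩ := h
      have h1 := lamP_mul lam g (1 : MvPolynomial σ K')
      rw [mul_one] at h1
      rw [h1]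
      exact I.mul_mem_right _ hg
    | zero =>
      intro lam
      rw [lamP_zero]
      exact I.zero_mem
    | add x y _ _ hx hy =>
      intro lam
      rw [lamP_add]
      exact I.add_mem (hx lam) (hy lam)
    | smul a x _ hx =>
      intro lam
      rw [smul_eq_mul]
      exact lamP_mem_mul I hx a lam
  exact key lam

/-- If `f` does not vanish at a point over an extension of `K` then some functional of `f` does not vanish there. -/
theorem exists_lamP {L L' : Type*} [Field L] [Field L'] [Algebra K L] [Algebra K L'] [Algebra K' L']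
    [Algebra L L'] [IsScalarTower K K' L'] [IsScalarTower K L L'] (x : σ → L)
    (f : MvPolynomial σ K') (h : aeval (fun i => algebraMap L L' (x i)) f ≠ 0) :
    ∃ lam : K' →ₗ[K] K, aeval x (lamP lam f) ≠ 0 := by
  classical
  by_contra hcon
  push Not at hcon
  apply h
  obtain ⟨b⟩ : Nonempty (Module.Basis (Module.Basis.ofVectorSpaceIndex K K') K K') :=
    ⟨Module.Basis.ofVectorSpace K K'⟩
  have h1 : ∀ lam : K' →ₗ[K] K, ∑ μ ∈ f.support, lam (coeff μ f) • μ.prod (fun i e => x i ^ e) = 0 := by
    intro lam
    have h2 := hcon lam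
    unfold lamP at h2
    rw [map_sum] at h2
    rw [← h2]
    refine Finset.sum_congr rfl fun μ _ => ?_
    rw [aeval_monomial, Algebra.smul_def]
  -- a finite set of basis vectors
  obtain ⟨T, hT⟩ : ∃ T : Finset (Module.Basis.ofVectorSpaceIndex K K'), ∀ μ ∈ f.support,
      coeff μ f = ∑ j ∈ T, b.repr (coeff μ f) j • b j := by
    refine ⟨f.support.biUnion fun μ => (b.repr (coeff μ f)).support, fun μ hμ => ?_⟩
    conv_lhs => rw [← b.linearCombination_repr (coeff μ f)]
    rw [Finsupp.linearCombination_apply, Finsupp.sum]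
    refine Finset.sum_subset (Finset.subset_biUnion_of_mem
      (fun μ => (b.repr (coeff μ f)).support) hμ) fun j _ hj => ?_
    rw [Finsupp.notMem_support_iff.1 hj, zero_smul]
  rw [aeval_def, eval₂_eq]
  have h3 : ∀ μ ∈ f.support, algebraMap K' L' (coeff μ f) *
      ∏ i ∈ μ.support, algebraMap L L' (x i) ^ μ i =
      ∑ j ∈ T, algebraMap K' L' (b j) *
        algebraMap L L' (b.coord j (coeff μ f) • μ.prod fun i e => x i ^ e) := by
    intro μ hμ
    conv_lhs => rw [hT μ hμ]
    rw [map_sum, Finset.sum_mul]
    refine Finset.sum_congr rfl fun j _ => ?_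
    rw [Algebra.smul_def, map_mul, Algebra.smul_def, map_mul, Finsupp.prod, map_prod,
      ← IsScalarTower.algebraMap_apply, ← IsScalarTower.algebraMap_apply]
    simp only [map_pow, Module.Basis.coord_apply]
    ring
  rw [Finset.sum_congr rfl h3, Finset.sum_comm]
  refine Finset.sum_eq_zero fun j _ => ?_
  rw [← Finset.mul_sum, ← map_sum, h1 (b.coord j), map_zero, mul_zero]

theorem lamP_hom (lam : K' →ₗ[K] K) {f : MvPolynomial σ K'} {d : ℕ} (hf : f.IsHomogeneous d) :
    (lamP lam f).IsHomogeneous d := by
  intro μ hμ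
  rw [coeff_lamP] at hμ
  exact hf fun h => hμ (by rw [h, map_zero])

end UVZ
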