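import Pool.Agent.Lib.MP_17a322_nt.FU.A3
import Pool.Agent.Lib.MP_17a322_nt.VA.G29

/-!
Translates of abelian subvarieties are closed.
-/

universe u

namespace UVZ

open MvPolynomial
open Pool.Agent.Lib.MP_17a322_nt.VA
open Pool.Agent.Lib.MP_17a322_nt.FU

/-- A form outside of the ideal of `A` does not vanish at some point of `A`. -/
theorem Z1_gen {K : Type u} [Field K] {N : ℕ} (A : AV K N) {D : ℕ}
    {F : MvPolynomial (Fin (N + 1)) K} (hF : F.IsHomogeneous D) (h : F ∉ A.I) :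
    ∃ (L : Type u) (_ : Field L) (_ : Algebra K L) (P : A.Pts L), aeval (A.x P) F ≠ 0 := by
  obtain ⟨M, hM, hKM, hkM, hT, y, hy⟩ := G.exists_generic A K
  obtain rfl : hKM = hkM := Algebra.algebra_ext _ _ fun r => by
    have h2 := @IsScalarTower.algebraMap_apply K K M _ _ _ _ hkM hKM hT r
    rw [h2]
    rfl
  refine ⟨M, hM, hKM, y, fun h0 => h ?_⟩
  have h1 : F ∈ G.loc K (A.x y) := (G.mem_loc_of_homog hF).2 h0
  rw [hy] at h1
  have h2 : MvPolynomial.map (σ := Fin (N + 1)) (algebraMap K K) = RingHom.id _ := by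
    refine RingHom.ext fun f => ?_
    exact MvPolynomial.map_id f
  rwa [h2, Ideal.map_id] at h1

/-- Translates of closed subgroups are closed. -/
theorem Z1_tr {K : Type u} [Field K] {N : ℕ} {A B : AV K N} (hB : IsSubAV B A)
    (hI : ¬ B.I ≤ A.I) (w : A.Pts K) :
    ∃ (k : ℕ) (G : MvPolynomial (Fin (N + 1)) K), G.IsHomogeneous k ∧ G ∉ A.I ∧
      ∀ b : B.Pts K, aeval (A.x (w + hB.inc K b)) G = 0 := by
  obtain ⟨F, hFB, hFA⟩ := Set.not_subset.1 hI
  obtain ⟨D, hD⟩ : ∃ D, homogeneousComponent D F ∉ A.I := by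
    by_contra hcon
    push Not at hcon
    apply hFA
    show F ∈ A.I
    rw [← sum_homogeneousComponent F]
    exact Ideal.sum_mem _ fun d _ => hcon d
  obtain ⟨F₀, hF₀⟩ : ∃ F₀, F₀ = homogeneousComponent D F := ⟨_, rfl⟩
  have hFh : F₀.IsHomogeneous D := by
    rw [hF₀]
    exact homogeneousComponent_isHomogeneous D F
  have hF₀B : F₀ ∈ B.I := by
    rw [hF₀]
    exact B.homog F hFB D
  rw [← hF₀] at hD
  obtain ⟨L, _, _, Q, hQ⟩ := Z1_gen A hFh hD
  obtain ⟨F', hF'⟩ : ∃ F' : MvPolynomial (Fin (N + 1) ⊕ Fin (0 + 1)) K,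
      F' = rename Sum.inl F₀ := ⟨_, rfl⟩
  have hf : ∀ μ ∈ F'.support, ∑ i, μ (Sum.inl i) = D ∧ ∑ l, μ (Sum.inr l) = 0 := by
    intro μ hμ
    rw [hF', mem_support_iff] at hμ
    obtain ⟨ν, h1, h2⟩ := coeff_rename_ne_zero _ _ _ hμ
    have h3 := hFh h2
    rw [Finsupp.weight_apply, Finsupp.sum_fintype _ _ (fun _ => by simp)] at h3
    subst h1
    refine ⟨?_, ?_⟩
    · rw [← h3]
      refine Finset.sum_congr rfl fun i _ => ?_
      rw [Finsupp.mapDomain_apply Sum.inl_injective]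
      simp
    · refine Finset.sum_eq_zero fun l _ => ?_
      exact Finsupp.mapDomain_of_notMem_range _ _ (by simp)
  have hF'e : ∀ (L' : Type u) [Field L'] [Algebra K L'] (x : Fin (N + 1) → L')
      (t : Fin (0 + 1) → L'), aeval (Sum.elim x t) F' = aeval x F₀ := by
    intro L' _ _ x t
    rw [hF', aeval_rename]
    congr 1
  obtain ⟨w', hw'⟩ : ∃ w' : A.Pts L, w' = A.img (Algebra.ofId K L) (-w) := ⟨_, rfl⟩
  have hr : A.Rep w' fun i => algebraMap K L (A.x (-w) i) := by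
    rw [hw']
    exact A.img_rep (Algebra.ofId K L) (-w)
  obtain ⟨c, hc⟩ := A.exists_x_ne (w' - (Q - w'))
  refine ⟨2 * D, U_G A (A.x (-w)) (fun _ => (0 : K)) c F', U_G_hom A hf _ _ _, ?_, ?_⟩
  · intro hmem
    have h1 := A.x_isPt (Q - w') _ hmem
    rw [U_G_aeval] at h1
    obtain ⟨e, he, h2⟩ := U_at A hf hr (AV.Rep.self (A := A) (Q - w'))
      (fun _ => algebraMap K L 0) c
    rw [h2, hF'e, add_sub_cancel] at h1
    exact mul_ne_zero (pow_ne_zero _ (he.2 hc)) hQ h1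
  · intro b
    rw [U_G_aeval]
    obtain ⟨e, -, h2⟩ := U_at A hf (AV.Rep.self (A := A) (-w))
      (AV.Rep.self (A := A) (w + hB.inc K b)) (fun _ => algebraMap K K 0) c
    have h3 : aeval (B.x b) F₀ = 0 := B.x_isPt b _ hF₀B
    refine h2.trans ?_
    rw [hF'e, neg_add_cancel_left, hB.x_inc, h3, mul_zero]

end UVZ
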