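import Pool.Agent.Lib.MP_17a322_ntZF.T1
import Pool.Agent.Lib.MP_17a322_nt.FU.Z1
import Pool.Agent.Lib.MP_17a322_ntMW.W6

/-!
Vojta's inequality with its exceptional closed set: the form for one parameter.
-/

universe u

namespace UVZ

open MvPolynomial Height
open Pool.Agent.Lib.MP_17a322_nt.VA
open Pool.Agent.Lib.MP_17a322_nt.FU

/-- A member of the family is a form in the coordinates of `A`. -/
theorem Z2_spec {K : Type u} [Field K] {N M : ℕ} {D D' : ℕ}
    (f : MvPolynomial (Fin (N + 1) ⊕ Fin (M + 1)) K)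
    (hf : ∀ μ ∈ f.support, ∑ i, μ (Sum.inl i) = D ∧ ∑ l, μ (Sum.inr l) = D')
    (t : Fin (M + 1) → K) : ∃ F : MvPolynomial (Fin (N + 1)) K, F.IsHomogeneous D ∧
      ∀ (L : Type u) [Field L] [Algebra K L] (x : Fin (N + 1) → L),
        aeval x F = aeval (Sum.elim x fun l => algebraMap K L (t l)) f := by
  refine ⟨aeval (Sum.elim X fun l => C (t l)) f, ?_, fun L _ _ x => ?_⟩
  · rw [aeval_def, eval₂_eq']
    refine IsHomogeneous.sum _ _ _ fun μ hμ => ?_
    obtain ⟨h1, -⟩ := hf μ hμ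
    rw [Fintype.prod_sum_type]
    simp only [Sum.elim_inl, Sum.elim_inr]
    have e1 : ((algebraMap K (MvPolynomial (Fin (N + 1)) K)) (coeff μ f)).IsHomogeneous 0 :=
      isHomogeneous_C _ _
    have e2 : (∏ l, (C (t l) : MvPolynomial (Fin (N + 1)) K) ^ μ (Sum.inr l)).IsHomogeneous 0 := by
      have e3 := IsHomogeneous.prod Finset.univ
        (fun l => (C (t l) : MvPolynomial (Fin (N + 1)) K) ^ μ (Sum.inr l)) (fun _ => 0)
        fun l _ => by
          have e4 := (isHomogeneous_C (Fin (N + 1)) (t l)).pow (μ (Sum.inr l))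
          rwa [zero_mul] at e4
      rwa [Finset.sum_const_zero] at e3
    have e5 : (∏ i, (X i : MvPolynomial (Fin (N + 1)) K) ^ μ (Sum.inl i)).IsHomogeneous D := by
      have e3 := IsHomogeneous.prod Finset.univ
        (fun i => (X i : MvPolynomial (Fin (N + 1)) K) ^ μ (Sum.inl i)) (fun i => μ (Sum.inl i))
        fun i _ => by
          have e4 := (isHomogeneous_X K i).pow (μ (Sum.inl i))
          rwa [one_mul] at e4
      rwa [h1] at e3
    have e6 := e1.mul (e5.mul e2)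
    rwa [zero_add, add_zero] at e6
  · rw [comp_aeval_apply]
    congr 2
    funext s
    rcases s with s | s
    · rw [Sum.elim_inl, Sum.elim_inl, aeval_X]
    · rw [Sum.elim_inr, Sum.elim_inr, aeval_C]

/-- `Y_t` has codimension at least two in `A`: the transcendence degree of the points of `Y_t` is smaller than the
one of some point of `A` minus one. -/
def Codim2 {K : Type u} [Field K] {N M : ℕ} (A : AV K N) (t : Fin (M + 1) → K) {r : ℕ}
    (g : Fin r → MvPolynomial (Fin (N + 1) ⊕ Fin (M + 1)) K) : Prop :=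
  ∀ (L : Type u) [Field L] [Algebra K L] (P : A.Pts L),
    (∀ j, aeval (Sum.elim (A.x P) fun l => algebraMap K L (t l)) (g j) = 0) →
    ∃ (L' : Type u) (_ : Field L') (_ : Algebra K L') (Q : A.Pts L'),
      tdeg K (A.x P) + 1 < tdeg K (A.x Q)

/-- Vojta's inequality with its exceptional closed set `G = 0`. -/
theorem zform {K : Type u} [Field K] [NumberField K] {N M : ℕ} (A : AV K N)
    {d d' r : ℕ} (g : Fin r → MvPolynomial (Fin (N + 1) ⊕ Fin (M + 1)) K)
    (hg : ∀ j, ∀ μ ∈ (g j).support, ∑ i, μ (Sum.inl i) = d ∧ ∑ l, μ (Sum.inr l) = d')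
    {D D' m : ℕ} (f : Fin m → MvPolynomial (Fin (N + 1) ⊕ Fin (M + 1)) K)
    (hf : ∀ j, ∀ μ ∈ (f j).support, ∑ i, μ (Sum.inl i) = D ∧ ∑ l, μ (Sum.inr l) = D')
    (S : Finset (NumberField.FinitePlace K)) (ε : ℝ) (hε : 0 < ε)
    (t : Fin (M + 1) → K) (ht : t ≠ 0) (h2 : Codim2 A t g)
    (h1 : ∃ (L : Type u) (_ : Field L) (_ : Algebra K L) (P : A.Pts L),
      ∃ j, aeval (Sum.elim (A.x P) fun l => algebraMap K L (t l)) (f j) ≠ 0) :
    ∃ (k : ℕ) (G : MvPolynomial (Fin (N + 1)) K) (C : ℝ), G.IsHomogeneous k ∧ G ∉ A.I ∧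
      ∀ P : A.Pts K, aeval (A.x P) G ≠ 0 →
        (∃ j, aeval (Sum.elim (A.x P) t) (f j) ≠ 0) ∧
          (∃ j, aeval (Sum.elim (A.x P) t) (g j) ≠ 0) ∧
          (d * logHeight (A.x P) + d' * logHeight t -
            logHeight (fun j => aeval (Sum.elim (A.x P) t) (g j))) +
          ((∑ v : NumberField.InfinitePlace K, (v.mult : ℝ) * lamF D D' f (A.x P) t v.val) +
            ∑ v ∈ S, lamF D D' f (A.x P) t v.val) ≤ ε * logHeight (A.x P) + C := by
  classical
  obtain ⟨C, k, B, hB, hdim, h⟩ := final A ⊤ (MWA.MW A) g hg f hf S ε 1 hε one_pos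
  -- the form for `X_t`
  obtain ⟨L₁, _, _, P₁, j₁, hj₁⟩ := h1
  obtain ⟨F₁, hF₁, hF₁e⟩ := Z2_spec (f j₁) (hf j₁) t
  have hF₁A : F₁ ∉ A.I := fun hmem => hj₁ (by rw [← hF₁e]; exact A.x_isPt P₁ _ hmem)
  -- the form for `Y_t`
  obtain ⟨n, hn, L₂, _, _, P₂, hP₂⟩ := Z_exists_dim A
  obtain ⟨j₂, hj₂⟩ : ∃ j, aeval (Sum.elim (A.x P₂) fun l => algebraMap K L₂ (t l)) (g j) ≠ 0 := by
    by_contra hcon
    push Not at hcon
    obtain ⟨L', _, _, Q, hQ⟩ := h2 L₂ P₂ hcon
    have h3 := hQ.trans_le (hn L' Q)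
    rw [hP₂] at h3
    exact absurd h3 (not_lt.2 le_self_add)
  obtain ⟨F₂, hF₂, hF₂e⟩ := Z2_spec (g j₂) (hg j₂) t
  have hF₂A : F₂ ∉ A.I := fun hmem => hj₂ (by rw [← hF₂e]; exact A.x_isPt P₂ _ hmem)
  -- the forms for the translates
  have hT : ∀ (i : Fin k) (w : A.Pts K), ∃ (e : ℕ) (G : MvPolynomial (Fin (N + 1)) K),
      G.IsHomogeneous e ∧ G ∉ A.I ∧ (¬ (B i).I ≤ A.I → ∀ b : (B i).Pts K,
        aeval (A.x (w + (hB i).inc K b)) G = 0) := by
    intro i w
    by_cases hI : (B i).I ≤ A.I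
    · refine ⟨0, 1, isHomogeneous_one _ _, ?_, fun h => absurd hI h⟩
      intro h1
      have h3 := A.x_isPt (0 : A.Pts K) _ h1
      rw [map_one] at h3
      exact one_ne_zero h3
    · obtain ⟨e, G, hG1, hG2, hG3⟩ := Z1_tr (hB i) hI w
      exact ⟨e, G, hG1, hG2, fun _ => hG3⟩
  choose e G hGh hGA hG0 using hT
  have hfin : {P : A.Pts K | logHeight (A.x P) ≤ C * (1 + logHeight t)}.Finite :=
    MWA.W5 A _
  obtain ⟨W, hW⟩ : ∃ W : Finset (A.Pts K), ∀ P, P ∈ W ↔
      logHeight (A.x P) ≤ C * (1 + logHeight t) := ⟨hfin.toFinset, fun P => by simp⟩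
  have hprime : A.I.IsPrime := by
    have h3 := A.prime K
    have h4 : MvPolynomial.map (σ := Fin (N + 1)) (algebraMap K K) = RingHom.id _ := by
      refine RingHom.ext fun f => ?_
      exact MvPolynomial.map_id f
    rwa [h4, Ideal.map_id] at h3
  obtain ⟨LHS, hLHS⟩ : ∃ LHS : A.Pts K → ℝ, ∀ P, LHS P =
      (d * logHeight (A.x P) + d' * logHeight t -
            logHeight (fun j => aeval (Sum.elim (A.x P) t) (g j))) +
          ((∑ v : NumberField.InfinitePlace K, (v.mult : ℝ) * lamF D D' f (A.x P) t v.val) +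
            ∑ v ∈ S, lamF D D' f (A.x P) t v.val) := ⟨_, fun _ => rfl⟩
  refine ⟨D + (d + ∑ i, ∑ w ∈ W, e i w), F₁ * (F₂ * ∏ i, ∏ w ∈ W, G i w),
    ∑ P ∈ W, |LHS P|, ?_, ?_, ?_⟩
  · exact hF₁.mul (hF₂.mul (IsHomogeneous.prod _ _ _ fun i _ =>
      IsHomogeneous.prod _ _ _ fun w _ => hGh i w))
  · intro hmem
    rcases hprime.mem_or_mem hmem with h3 | h3
    · exact hF₁A h3
    · rcases hprime.mem_or_mem h3 with h3 | h3
      · exact hF₂A h3
      · obtain ⟨i, -, h4⟩ := hprime.prod_mem_iff.1 h3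
        obtain ⟨w, -, h5⟩ := hprime.prod_mem_iff.1 h4
        exact hGA i w h5
  · intro P hP
    rw [map_mul, map_mul, mul_ne_zero_iff, mul_ne_zero_iff, map_prod] at hP
    obtain ⟨hP1, hP2, hP3⟩ := hP
    have hf0 : ∃ j, aeval (Sum.elim (A.x P) t) (f j) ≠ 0 := ⟨j₁, by
      have h3 := hF₁e K (A.x P)
      rw [h3] at hP1
      exact hP1⟩
    have hg0 : ∃ j, aeval (Sum.elim (A.x P) t) (g j) ≠ 0 := ⟨j₂, by
      have h3 := hF₂e K (A.x P)
      rw [h3] at hP2
      exact hP2⟩
    refine ⟨hf0, hg0, ?_⟩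
    rw [← hLHS P]
    have hC0 : 0 ≤ ∑ P ∈ W, |LHS P| := Finset.sum_nonneg fun _ _ => abs_nonneg _
    have hh0 : 0 ≤ ε * logHeight (A.x P) := mul_nonneg hε.le (logHeight_nonneg _)
    by_cases hPW : P ∈ W
    · have h3 : |LHS P| ≤ ∑ P ∈ W, |LHS P| :=
        Finset.single_le_sum (f := fun P => |LHS P|) (fun _ _ => abs_nonneg _) hPW
      linarith [le_abs_self (LHS P)]
    · have hPC : C * (1 + logHeight t) ≤ logHeight (A.x P) := by
        by_contra hcon
        exact hPW ((hW P).2 (not_le.1 hcon).le)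
      rcases h t ht P (AddSubgroup.mem_top P) hPC with ⟨i, w, b, hw, -, hwh, hTB⟩ | h3
      · exfalso
        have hwW : w ∈ W := (hW w).2 (hwh rfl)
        by_cases hI : (B i).I ≤ A.I
        · rcases hTB with hTr | hBad
          · have h3 := hTr j₁ K 0
            rw [map_zero, add_zero] at h3
            have h4 : A.img (Algebra.ofId K K) P = P := by
              have h5 : Algebra.ofId K K = AlgHom.id K K := AlgHom.ext fun _ => rfl
              rw [h5, AV.img_id]
            rw [h4, ← hF₁e] at h3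
            exact hP1 h3
          · obtain ⟨L, _, _, q, hq, hmax⟩ := hBad
            obtain ⟨L', _, _, Q, hQ⟩ := h2 L _ hq
            obtain ⟨Q', hQ'⟩ : ∃ Q' : (B i).Pts L', (B i).x Q' = A.x Q :=
              ⟨⟨Q.1, fun f hf => Q.2 f (hI hf)⟩, rfl⟩
            have h3 := hmax L' Q'
            rw [hQ'] at h3
            have h4 := (M_shift (k := K) ((hB i).inc L q) (A.img (Algebra.ofId K L) P) ?_).1
            · rw [add_comm (A.img (Algebra.ofId K L) P), h4, (hB i).x_inc] at hQ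
              exact absurd (hQ.trans_le h3) (lt_irrefl _)
            · intro s
              refine ⟨rt (A.x P) s, ?_⟩
              obtain ⟨c, hc, h5⟩ := A.img_rep (Algebra.ofId K L) P
              unfold rt
              rw [map_div₀]
              have h6 : ∀ a, algebraMap K L (A.x P a) = c * A.x (A.img (Algebra.ofId K L) P) a := h5
              rw [h6, h6, mul_div_mul_left _ _ hc]
        · apply hP3
          refine Finset.prod_eq_zero (Finset.mem_univ i) ?_
          rw [map_prod]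
          refine Finset.prod_eq_zero hwW ?_
          rw [hw]
          exact hG0 i w hI b
      · have h4 := h3.2.2
        rw [← hLHS P] at h4
        linarith

end UVZ
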