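import Pool.Agent.Lib.MP_17a322_ntZF.LD
import Pool.Agent.Lib.MP_17a322_ntZF.BC
import Pool.Agent.Lib.MP_17a322_ntKX.V1b
import Pool.Agent.Lib.MP_17a322_ntKX.V2
import Pool.Agent.Lib.MP_17a322_nt.VA.N1
import Pool.Agent.Lib.MP_17a322_nt.VA.E20

/-!
The valuation property at a point of the etale chart.
-/

set_option autoImplicit false

universe u v

namespace UVZ

open MvPolynomial
open Pool.Agent.Lib.MP_17a322_nt.VA
open Pool.Agent.Lib.MP_17a322_nt.VN (exists_basis_subset)

/-- The transcendence degree of the Noether coordinates. -/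
theorem VK_trdeg {K k M : Type u} [Field K] [Field k] [Field M] [Algebra K k] [Algebra K M]
    [Algebra k M] [IsScalarTower K k M] {N : ℕ} {A : AV K N} {n e : ℕ} (nd : Noe A n e)
    (u : A.Pts M) (hu : nd.Good u) :
    tdeg k (A.x u) ≤ Algebra.trdeg k (IntermediateField.adjoin k (Set.range (nd.s u))) := by
  obtain ⟨T, hT, hTa⟩ := exists_basis_subset (K := k) (nd.s u)
  have hcard : tdeg k (A.x u) ≤ (Nat.card T : Cardinal.{u}) := by
    refine Z_tdeg_le_card (A.x u) (fun t : T => nd.s u t) fun p => ?_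
    have hr : Set.range (fun t : T => nd.s u t) = nd.s u '' T := (Set.image_eq_range _ _).symm
    rw [hr, ← mem_acl]
    have hs : Set.range (nd.s u) ⊆ acl k (nd.s u '' T) := by
      rintro _ ⟨i, rfl⟩
      exact mem_acl.2 (hTa i)
    have hy : ∀ a, nd.y u a ∈ acl k (nd.s u '' T) := by
      intro a
      refine acl_acl hs (mem_acl.2 ?_)
      obtain ⟨p, hp, hp0⟩ := G.alg_of_noe nd hu.1 hu.2 a
      have h1 : IntermediateField.adjoin K (Set.range (nd.s u)) ≤
          (IntermediateField.adjoin k (Set.range (nd.s u))).restrictScalars K := by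
        rw [IntermediateField.adjoin_le_iff]
        exact IntermediateField.subset_adjoin k _
      let ι : IntermediateField.adjoin K (Set.range (nd.s u)) →+*
          IntermediateField.adjoin k (Set.range (nd.s u)) := (IntermediateField.inclusion h1).toRingHom
      refine ⟨p.map ι, ?_, ?_⟩
      · rw [Ne, Polynomial.map_eq_zero_iff ι.injective]
        exact hp
      · rw [Polynomial.aeval_def, Polynomial.eval₂_map]
        exact hp0
    have h2 : rt (A.x u) p = nd.y u p.1 / nd.y u p.2 := by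
      unfold rt Noe.y
      rw [div_div_div_cancel_right₀ hu.1]
    rw [h2]
    exact (acl k (nd.s u '' T)).div_mem (hy _) (hy _)
  refine hcard.trans ?_
  have hT' : AlgebraicIndependent k (fun t : T =>
      (⟨nd.s u t, IntermediateField.subset_adjoin k _ ⟨t, rfl⟩⟩ :
        IntermediateField.adjoin k (Set.range (nd.s u)))) := by
    refine AlgebraicIndependent.of_comp (IntermediateField.adjoin k (Set.range (nd.s u))).val ?_
    exact hT
  have h3 := hT'.lift_cardinalMk_le_trdeg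
  have hfin : Finite T := Subtype.finite
  rw [← Nat.cast_card (α := T)] at h3
  simpa using h3

/-- The homogenisation is homogeneous. -/
theorem hz_isHomogeneous {K : Type u} [Field K] {N : ℕ} (l : Fin (N + 1) → K)
    (f : MvPolynomial (Fin (N + 1)) K) : (hz l f).IsHomogeneous f.totalDegree := by
  unfold hz
  refine IsHomogeneous.sum _ _ _ fun d hd => ?_
  have h1 : (Pool.Agent.Lib.MP_17a322_nt.VA.lp l).IsHomogeneous 1 := by
    unfold Pool.Agent.Lib.MP_17a322_nt.VA.lp
    refine IsHomogeneous.sum _ _ _ fun a _ => ?_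
    have h := (isHomogeneous_C (Fin (N + 1)) (l a)).mul (isHomogeneous_X K a)
    rwa [zero_add] at h
  have h2 := (h1.pow (f.totalDegree - d)).mul (homogeneousComponent_isHomogeneous d f)
  rwa [one_mul, Nat.sub_add_cancel (Nat.lt_succ_iff.1 (Finset.mem_range.1 hd))] at h2

/-- **The valuation property** over `k` at a point of the etale chart of dimension at least `n - 1`. -/
theorem VK {K k M : Type u} [Field K] [Field k] [Field M] [Algebra K k] [Algebra K M]
    [Algebra k M] [IsScalarTower K k M] {N : ℕ} {A : AV K N} {n e : ℕ} (nd : Noe A n e)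
    (u : A.Pts M) (hu : nd.Good u) (hdim : (n : Cardinal.{u}) ≤ tdeg k (A.x u) + 1)
    {D : ℕ} (a b : MvPolynomial (Fin (N + 1)) k) (ha : a.IsHomogeneous D)
    (hb : b.IsHomogeneous D) :
    ∃ (D' : ℕ) (c d : MvPolynomial (Fin (N + 1)) k), c.IsHomogeneous D' ∧ d.IsHomogeneous D' ∧
      aeval (A.x u) d ≠ 0 ∧
      (a * d - b * c ∈ A.I.map (MvPolynomial.map (σ := Fin (N + 1)) (algebraMap K k)) ∨
        b * d - a * c ∈ A.I.map (MvPolynomial.map (σ := Fin (N + 1)) (algebraMap K k))) := by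
  classical
  -- the base change
  obtain ⟨A', hI, -, hpt⟩ := exists_bc A k
  obtain ⟨eM, heM⟩ := hpt M
  rw [← hI]
  obtain ⟨l, hl⟩ : ∃ l : Fin (N + 1) → k, l = fun i => algebraMap K k (nd.l 0 i) := ⟨_, rfl⟩
  have hlf : ∀ (R : Type u) [CommRing R] [Algebra K R] [Algebra k R] [IsScalarTower K k R]
      (y : Fin (N + 1) → R), lf l y = lf (nd.l 0) y := by
    intro R _ _ _ _ y
    unfold lf
    refine Finset.sum_congr rfl fun i _ => ?_
    rw [hl, ← IsScalarTower.algebraMap_apply]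
  -- the generic point of `A'` is in the chart
  have hgl : lf l A'.gp ≠ 0 := by
    intro h0
    have h1 : Pool.Agent.Lib.MP_17a322_nt.VA.lp l ∈ A'.I := by
      rw [← A'.gp_zero_iff, aeval_lp]
      exact h0
    have h2 := A'.x_isPt (eM.symm u) _ h1
    rw [aeval_lp, ← heM, AddEquiv.apply_symm_apply, hlf] at h2
    exact hu.1 h2
  obtain ⟨y₀, hy₀⟩ : ∃ y₀ : Fin (N + 1) → A'.FF, y₀ = A'.ga l := ⟨_, rfl⟩
  obtain ⟨J, hJ⟩ : ∃ J : Ideal (MvPolynomial (Fin (N + 1)) k),
      J = RingHom.ker (aeval y₀ : MvPolynomial (Fin (N + 1)) k →ₐ[k] A'.FF) := ⟨_, rfl⟩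
  have hJp : J.IsPrime := by
    rw [hJ]
    exact RingHom.ker_isPrime _
  have hmemJ : ∀ f, f ∈ J ↔ aeval y₀ f = 0 := fun f => by rw [hJ]; exact RingHom.mem_ker
  -- the affine coordinate ring
  let Q : Type u := MvPolynomial (Fin (N + 1)) k ⧸ J
  have hQd : IsDomain Q := (Ideal.Quotient.isDomain_iff_prime J).2 hJp
  have hQn : IsNoetherianRing Q := Ideal.Quotient.isNoetherianRing J
  have hQt : IsScalarTower K k Q := inferInstance
  obtain ⟨y, hy⟩ : ∃ y : Fin (N + 1) → Q, y = fun i => Ideal.Quotient.mk J (X i) := ⟨_, rfl⟩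
  have hmk : ∀ f : MvPolynomial (Fin (N + 1)) k, aeval y f = Ideal.Quotient.mk J f := by
    intro f
    have h1 : (aeval y : MvPolynomial (Fin (N + 1)) k →ₐ[k] Q) = Ideal.Quotient.mkₐ k J := by
      refine MvPolynomial.algHom_ext fun i => ?_
      rw [aeval_X, hy]
      rfl
    rw [h1]
    rfl
  have hyI : A.IsPt y := by
    intro f hf
    rw [← aeval_map_algebraMap k, hmk, Ideal.Quotient.eq_zero_iff_mem, hmemJ]
    have h1 : MvPolynomial.map (algebraMap K k) f ∈ A'.I := by
      rw [hI]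
      exact Ideal.mem_map_of_mem _ hf
    rw [hy₀]
    exact AV.ga_isPt l _ h1
  have hyl : lf (nd.l 0) y = 1 := by
    rw [← hlf Q, ← aeval_lp, hmk, ← map_one (Ideal.Quotient.mk J), Ideal.Quotient.mk_eq_mk_iff_sub_mem,
      hmemJ, map_sub, aeval_lp, map_one, hy₀, AV.lf_ga hgl, sub_self]
  -- the polynomial ring of the Noether coordinates
  obtain ⟨φ, hφ⟩ : ∃ φ : MvPolynomial (Fin n) k →ₐ[k] Q,
      φ = aeval fun j : Fin n => lf (nd.l j.succ) y := ⟨_, rfl⟩
  let iPQ : Algebra (MvPolynomial (Fin n) k) Q := φ.toRingHom.toAlgebra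
  have hPQ : ∀ p : MvPolynomial (Fin n) k, algebraMap (MvPolynomial (Fin n) k) Q p = φ p :=
    fun _ => rfl
  have hPK : (algebraMap (MvPolynomial (Fin n) k) Q).comp (MvPolynomial.map (algebraMap K k)) =
      (aeval (R := K) fun j : Fin n => lf (nd.l j.succ) y).toRingHom := by
    refine RingHom.ext fun p => ?_
    rw [RingHom.comp_apply, hPQ, hφ, aeval_map_algebraMap]
    rfl
  obtain ⟨θ, hθd⟩ : ∃ θ : Q, θ = aeval y nd.θ := ⟨_, rfl⟩
  obtain ⟨mp, hmp⟩ : ∃ mp : MvPolynomial (Fin n) K →+* MvPolynomial (Fin n) k,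
      mp = MvPolynomial.map (algebraMap K k) := ⟨_, rfl⟩
  have hev : ∀ F : Polynomial (MvPolynomial (Fin n) K), Polynomial.aeval θ (F.map mp) =
      F.eval₂ (aeval (R := K) fun j : Fin n => lf (nd.l j.succ) y).toRingHom (aeval y nd.θ) := by
    intro F
    rw [Polynomial.aeval_def, Polynomial.eval₂_map, hmp, hPK, hθd]
  have hΦ : (nd.Φ.map mp).Monic := nd.Φ_monic.map mp
  have hθ0 : Polynomial.aeval θ (nd.Φ.map mp) = 0 := by
    rw [hev]
    exact nd.Φ_zero Q y hyI hyl
  have hδe : algebraMap (MvPolynomial (Fin n) k) Q (mp nd.δ) =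
      aeval (fun j : Fin n => lf (nd.l j.succ) y) nd.δ := by
    have h1 := RingHom.congr_fun hPK nd.δ
    rw [hmp]
    exact h1
  -- everything is a polynomial in `θ` up to powers of `δ`
  have hgen : ∀ q : Q, ∃ (r : ℕ) (F : Polynomial (MvPolynomial (Fin n) k)),
      algebraMap (MvPolynomial (Fin n) k) Q (mp nd.δ) ^ r * q = Polynomial.aeval θ F := by
    intro q
    obtain ⟨f, rfl⟩ := Ideal.Quotient.mk_surjective q
    induction f using MvPolynomial.induction_on with
    | C c =>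
      refine ⟨0, Polynomial.C (C c), ?_⟩
      rw [pow_zero, one_mul, Polynomial.aeval_C, hPQ]
      have h1 : φ (C c) = algebraMap k Q c := φ.commutes c
      rw [h1]
      rfl
    | add p q hp hq =>
      obtain ⟨r₁, F₁, h1⟩ := hp
      obtain ⟨r₂, F₂, h2⟩ := hq
      refine ⟨r₁ + r₂, Polynomial.C (mp nd.δ) ^ r₂ * F₁ + Polynomial.C (mp nd.δ) ^ r₁ * F₂, ?_⟩
      rw [map_add, map_add, map_mul, map_mul, ← h1, ← h2, map_pow, map_pow, Polynomial.aeval_C]
      ring
    | mul_X p i hp =>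
      obtain ⟨r₁, F₁, h1⟩ := hp
      refine ⟨r₁ + 1, F₁ * (nd.p i).map mp, ?_⟩
      rw [map_mul, map_mul, ← h1, hev, ← nd.p_eq Q y hyI hyl i, ← hδe]
      have h2 : y i = Ideal.Quotient.mk J (X i) := by rw [hy]
      rw [h2]
      ring
  -- the point
  have htr : ∀ f ∈ J, aeval (nd.y u) f = 0 := by
    intro f hf
    rw [hmemJ, hy₀] at hf
    have hz : A'.IsPt (nd.y u) := by
      have h1 : nd.y u = fun i => (lf (nd.l 0) (A.x u))⁻¹ * A'.x (eM.symm u) i := by
        funext i
        rw [← heM, AddEquiv.apply_symm_apply]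
        unfold Noe.y
        rw [div_eq_inv_mul]
      rw [h1]
      exact (A'.x_isPt _).smul _
    refine AV.transfer hgl hf hz ?_
    rw [hlf]
    have h1 : nd.y u = fun i => (lf (nd.l 0) (A.x u))⁻¹ * A.x u i := by
      funext i
      unfold Noe.y
      rw [div_eq_inv_mul]
    rw [h1, lf_smul, inv_mul_cancel₀ hu.1]
  obtain ⟨ψ, hψ⟩ : ∃ ψ : Q →+* M, ∀ f : MvPolynomial (Fin (N + 1)) k,
      ψ (Ideal.Quotient.mk J f) = aeval (nd.y u) f :=
    ⟨Ideal.Quotient.lift J (aeval (nd.y u) : MvPolynomial (Fin (N + 1)) k →ₐ[k] M).toRingHom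
      (fun f hf => htr f hf), fun f => rfl⟩
  have hyu : ∀ i, ψ (y i) = nd.y u i := fun i => by
    rw [hy, hψ, aeval_X]
  have hsu : ∀ j : Fin n, ψ (lf (nd.l j.succ) y) = nd.s u j := by
    intro j
    have h0 : ∀ c : K, ψ (algebraMap K Q c) = algebraMap K M c := by
      intro c
      rw [IsScalarTower.algebraMap_apply K k Q, IsScalarTower.algebraMap_apply K k M]
      have h1 := hψ (C (algebraMap K k c))
      rw [aeval_C] at h1
      exact h1
    unfold lf
    rw [map_sum]
    have h1 : nd.s u j = ∑ i, algebraMap K M (nd.l j.succ i) * nd.y u i := by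
      unfold Noe.s Noe.y lf
      rw [Finset.sum_div]
      refine Finset.sum_congr rfl fun i _ => ?_
      rw [mul_div_assoc]
    rw [h1]
    refine Finset.sum_congr rfl fun i _ => ?_
    rw [map_mul, h0, hyu]
  have hψP : ∀ p : MvPolynomial (Fin n) k,
      ψ (algebraMap (MvPolynomial (Fin n) k) Q p) = aeval (nd.s u) p := by
    intro p
    have h1 : (ψ.comp φ.toRingHom) = (aeval (nd.s u) : MvPolynomial (Fin n) k →ₐ[k] M).toRingHom := by
      refine MvPolynomial.ringHom_ext (fun c => ?_) fun j => ?_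
      · have h2 : φ (C c) = algebraMap k Q c := φ.commutes c
        have h3 := hψ (C c)
        rw [aeval_C] at h3
        change ψ (φ (C c)) = aeval (nd.s u) (C c)
        rw [h2, aeval_C, ← h3]
        rfl
      · change ψ (φ (X j)) = aeval (nd.s u) (X j)
        rw [hφ, aeval_X, aeval_X, hsu]
    exact RingHom.congr_fun h1 p
  have hδu : ψ (algebraMap (MvPolynomial (Fin n) k) Q (mp nd.δ)) ≠ 0 := by
    rw [hψP, hmp, aeval_map_algebraMap]
    exact hu.2
  have hθ' : ψ (Polynomial.aeval θ (Polynomial.derivative (nd.Φ.map mp))) ≠ 0 := by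
    obtain ⟨sa, sb, hsep⟩ := nd.sep
    have h1 := congrArg (fun F => Polynomial.aeval θ (F.map mp)) hsep
    simp only [Polynomial.map_add, Polynomial.map_mul, Polynomial.map_C, map_add, map_mul,
      hθ0, mul_zero, zero_add, Polynomial.aeval_C, ← Polynomial.derivative_map] at h1
    intro h0
    apply hδu
    rw [← h1, map_mul, h0, mul_zero]
  obtain ⟨π, hπ⟩ := KX.ker_principal (k := k) (nd.s u)
    (hdim.trans (add_le_add_left (VK_trdeg nd u hu) 1))
  obtain ⟨c₁, d₁, hd₁, hcd⟩ := KX.val_chart ψ hΦ hθ0 hθ' hδu hgen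
    (fun p => by rw [hψP]; exact hπ p) (Ideal.Quotient.mk J a) (Ideal.Quotient.mk J b)
  obtain ⟨c₀, rfl⟩ := Ideal.Quotient.mk_surjective c₁
  obtain ⟨d₀, rfl⟩ := Ideal.Quotient.mk_surjective d₁
  rw [hψ] at hd₁
  -- homogenise
  have hlp : (Pool.Agent.Lib.MP_17a322_nt.VA.lp l).IsHomogeneous 1 := by
    unfold Pool.Agent.Lib.MP_17a322_nt.VA.lp
    refine IsHomogeneous.sum _ _ _ fun a _ => ?_
    have h := (isHomogeneous_C (Fin (N + 1)) (l a)).mul (isHomogeneous_X k a)
    rwa [zero_add] at h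
  obtain ⟨c, hc⟩ : ∃ c, c = Pool.Agent.Lib.MP_17a322_nt.VA.lp l ^ d₀.totalDegree * hz l c₀ :=
    ⟨_, rfl⟩
  obtain ⟨d, hd⟩ : ∃ d, d = Pool.Agent.Lib.MP_17a322_nt.VA.lp l ^ c₀.totalDegree * hz l d₀ :=
    ⟨_, rfl⟩
  have hch : c.IsHomogeneous (d₀.totalDegree + c₀.totalDegree) := by
    have h1 := (hlp.pow d₀.totalDegree).mul (hz_isHomogeneous l c₀)
    rw [one_mul] at h1
    rw [hc]
    exact h1
  have hdh : d.IsHomogeneous (d₀.totalDegree + c₀.totalDegree) := by
    have h1 := (hlp.pow c₀.totalDegree).mul (hz_isHomogeneous l d₀)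
    rw [one_mul, add_comm c₀.totalDegree] at h1
    rw [hd]
    exact h1
  have hce : ∀ (R : Type u) [CommRing R] [Algebra k R] (z : Fin (N + 1) → R) (γ : R),
      lf l z = 1 → aeval (fun i => γ * z i) c = γ ^ (d₀.totalDegree + c₀.totalDegree) *
        aeval z c₀ := by
    intro R _ _ z γ hz1
    rw [hc, map_mul, map_pow, aeval_lp, lf_smul, hz1, hz_smul hz1, mul_one]
    ring
  have hde : ∀ (R : Type u) [CommRing R] [Algebra k R] (z : Fin (N + 1) → R) (γ : R),
      lf l z = 1 → aeval (fun i => γ * z i) d = γ ^ (d₀.totalDegree + c₀.totalDegree) *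
        aeval z d₀ := by
    intro R _ _ z γ hz1
    rw [hd, map_mul, map_pow, aeval_lp, lf_smul, hz1, hz_smul hz1, mul_one]
    ring
  have hgp : A'.gp = fun i => lf l A'.gp * y₀ i := by
    rw [hy₀]
    exact AV.gp_eq hgl
  have hy₀l : lf l y₀ = 1 := by
    rw [hy₀]
    exact AV.lf_ga hgl
  have hfin : ∀ (a b : MvPolynomial (Fin (N + 1)) k), a.IsHomogeneous D → b.IsHomogeneous D →
      Ideal.Quotient.mk J a * Ideal.Quotient.mk J d₀ = Ideal.Quotient.mk J b *
        Ideal.Quotient.mk J c₀ → a * d - b * c ∈ A'.I := by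
    intro a b ha hb hab
    rw [← map_mul, ← map_mul, Ideal.Quotient.mk_eq_mk_iff_sub_mem, hmemJ, map_sub, map_mul,
      map_mul] at hab
    rw [← A'.gp_zero_iff, hgp, map_sub, map_mul, map_mul, hce _ _ _ hy₀l, hde _ _ _ hy₀l,
      aeval_smul_hom ha, aeval_smul_hom hb]
    linear_combination (lf l A'.gp ^ D * lf l A'.gp ^ (d₀.totalDegree + c₀.totalDegree)) * hab
  refine ⟨d₀.totalDegree + c₀.totalDegree, c, d, hch, hdh, ?_, ?_⟩
  · have h1 : A.x u = fun i => lf (nd.l 0) (A.x u) * nd.y u i := by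
      funext i
      unfold Noe.y
      rw [mul_div_cancel₀ _ hu.1]
    rw [h1, hde]
    · exact mul_ne_zero (pow_ne_zero _ hu.1) hd₁
    · rw [hlf]
      have h1 : nd.y u = fun i => (lf (nd.l 0) (A.x u))⁻¹ * A.x u i := by
        funext i
        unfold Noe.y
        rw [div_eq_inv_mul]
      rw [h1, lf_smul, inv_mul_cancel₀ hu.1]
  · rcases hcd with h | h
    · exact Or.inl (hfin a b ha hb h)
    · exact Or.inr (hfin b a hb ha h)

end UVZ
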